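import Pool.Agent.Lib_MP_7ba156_pc.Twist

/-!
# Generalised primes close to the primes, together with all twists, with long gaps
-/

set_option autoImplicit false

namespace Pool.Agent.BG

open Finset

namespace WData

variable {M : ℝ → ℝ} (D : WData M)

theorem prime_symm (hmono : MonotoneOn M (Set.Ici 2)) {x : ℝ} (hx : 2 ≤ x)
    (hM1 : ∀ x, 2 ≤ x → 1 ≤ M x) :
    (({p : ℕ | p.Prime ∧ ¬ (D.w p ≤ x ↔ (p : ℝ) ≤ x)} : Set ℕ).ncard : ℝ) ≤ M x := by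
  set R : Set ℕ := {p : ℕ | p.Prime ∧ ¬ (D.w p ≤ x ↔ (p : ℝ) ≤ x)} with hR
  have key : ∀ p ∈ R, ∃ k, p ∈ D.S k ∧ D.A k ≤ x ∧ x ≤ D.A k + 6 * D.H k := by
    rintro p ⟨hpp, hp⟩
    by_cases h : ∃ k, p ∈ D.S k
    · obtain ⟨k, hk⟩ := h
      have h1 := D.w_mem hk
      have h2 := ((D.hS k p).1 hk).2
      refine ⟨k, hk, ?_⟩
      rcases le_or_gt (D.w p) x with h3 | h3
      · have h5 : x < p := by
          by_contra h6
          exact hp ⟨fun _ => not_lt.1 h6, fun _ => h3⟩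
        exact ⟨h1.1.trans h3, h5.le.trans h2.2⟩
      · have h5 : (p : ℝ) ≤ x := by
          by_contra h6
          exact hp ⟨fun h7 => absurd h7 (not_le.2 h3), fun h7 => absurd h7 h6⟩
        exact ⟨h2.1.trans h5, h3.le.trans h1.2⟩
    · push Not at h
      exfalso
      have h1 := D.w_of_notMem h
      rw [h1] at hp
      exact hp Iff.rfl
  by_cases h : ∃ k, D.A k ≤ x ∧ x ≤ D.A k + 6 * D.H k
  · obtain ⟨k, hk1, hk2⟩ := h
    have h2 : R ⊆ (D.S k : Set ℕ) := by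
      intro p hp
      obtain ⟨l, hl, hl1, hl2⟩ := key p hp
      rw [D.eq_of_mem hk1 hk2 hl1 hl2]
      exact hl
    have h3 : R.ncard ≤ (D.S k).card := by
      rw [← Set.ncard_coe_finset]
      exact Set.ncard_le_ncard h2 (D.S k).finite_toSet
    have h4 : (R.ncard : ℝ) ≤ ((D.S k).card : ℝ) := by exact_mod_cast h3
    have h5 : (2 : ℝ) ≤ D.A k := by linarith [D.hA k]
    exact h4.trans ((D.hcard k).trans (hmono h5 (h5.trans hk1) hk1))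
  · have h1 : R = ∅ := by
      rw [Set.eq_empty_iff_forall_notMem]
      intro p hp
      obtain ⟨l, hl, hl1, hl2⟩ := key p hp
      exact h ⟨l, hl1, hl2⟩
    rw [h1, Set.ncard_empty, Nat.cast_zero]
    exact zero_le_one.trans (hM1 x hx)

end WData

theorem main_twists (θ : ℝ) (hθ0 : 0 ≤ θ) (hθ1 : θ < 1) (M : ℝ → ℝ) (hmono : MonotoneOn M (Set.Ici 2))
    (hM1 : ∀ x, 2 ≤ x → 1 ≤ M x)
    (hM : ∀ ε > 0, ∃ C, ∀ x, 2 ≤ x → M x ≤ C * x ^ (θ + ε)) :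
    ∃ f : ℕ →*₀ ℝ,
      (∀ p : ℕ, p.Prime → 1 < f p ∧ |f p - p| ≤ M p * Real.log p) ∧
      (∀ x : ℝ, {n : ℕ | f n ≤ x}.Finite) ∧
      (∀ x : ℝ, 2 ≤ x → (({p : ℕ | p.Prime ∧ ¬ (f p ≤ x ↔ (p : ℝ) ≤ x)} : Set ℕ).ncard : ℝ) ≤ M x) ∧
      (∀ ε > 0, ∃ C : ℝ, ∀ x : ℝ, 1 ≤ x →
        |(({n : ℕ | 0 < n ∧ f n ≤ x} : Set ℕ).ncard : ℝ) - x| ≤ C * x ^ (θ + ε)) ∧
      (∃ D : (ℕ →*₀ ℂ) → ℂ → ℂ,
        (∀ ε > 0, ∃ C > 0, ∀ χ : ℕ →*₀ ℂ, (∀ n, ‖χ n‖ ≤ 1) → ∀ s : ℂ, θ + ε ≤ s.re →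
          1 / C ≤ ‖D χ s‖ ∧ ‖D χ s‖ ≤ C) ∧
        ∀ χ : ℕ →*₀ ℂ, (∀ n, ‖χ n‖ ≤ 1) → DifferentiableOn ℂ (D χ) {s | θ < s.re} ∧
          ∀ s : ℂ, 1 < s.re → HasSum (fun n : ℕ => χ n * ((f n : ℝ) : ℂ) ^ (-s))
            ((∑' n : ℕ, χ n * (n : ℂ) ^ (-s)) * D χ s)) ∧
      ∀ Y : ℝ, ∃ p q : ℕ, p.Prime ∧ q.Prime ∧ Y ≤ f p ∧ f p < f q ∧
        M (f p) * Real.log (f p) / 300 ≤ f q - f p ∧
        ∀ r : ℕ, r.Prime → f r ≤ f p ∨ f q ≤ f r := by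
  obtain ⟨C1, η1, hη1, hη1', hC1⟩ := exists_eta hM hθ1
  obtain ⟨D⟩ := exists_wdata hmono hM1 hη1' hC1
  have hp : ∀ p : ℕ, p.Prime → ext D.w p = D.w p := fun p hp => ext_prime hp
  have hset : ∀ x : ℝ, {p : ℕ | p.Prime ∧ ¬ (ext D.w p ≤ x ↔ (p : ℝ) ≤ x)} =
      {p : ℕ | p.Prime ∧ ¬ (D.w p ≤ x ↔ (p : ℝ) ≤ x)} := by
    intro x
    ext p
    simp only [Set.mem_ofPred_eq]
    exact and_congr_right fun h => by rw [hp p h]
  refine ⟨ext D.w, ?_, ?_, ?_, ?_, ⟨D.QT, ?_, ?_⟩, ?_⟩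
  · intro p hpp
    rw [hp p hpp]
    exact ⟨D.good.one_lt hpp, D.displacement hpp hM1⟩
  · intro x
    refine ((D.good.gi_finite x).union (Set.finite_singleton 0)).subset fun n hn => ?_
    rcases Nat.eq_zero_or_pos n with h0 | h0
    · exact Or.inr h0
    · exact Or.inl ⟨h0, hn⟩
  · intro x hx
    rw [hset x]
    exact D.prime_symm hmono hx hM1
  · intro ε hε
    have hτ : θ < min (θ + ε) 1 := lt_min (by linarith) hθ1
    obtain ⟨C, η, hη, hη', hC⟩ := exists_eta hM hτ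
    obtain ⟨B, hB⟩ := D.cnt_le (by linarith) hC hη' (min_le_right _ _)
    have hB0 : 0 ≤ B := by
      have := hB 1 one_pos
      rw [Real.one_rpow, mul_one] at this
      exact (abs_nonneg _).trans this
    refine ⟨B, fun x hx => (hB x (by linarith)).trans ?_⟩
    refine mul_le_mul_of_nonneg_left ?_ hB0
    exact Real.rpow_le_rpow_of_exponent_le hx (min_le_left _ _)
  · intro ε hε
    obtain ⟨C, η, hη, hη', hC⟩ := exists_eta hM (show θ < θ + ε by linarith)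
    exact D.QT_bound (by linarith) hC hη'
  · intro χ hχ
    refine ⟨fun s hs => ?_, fun s hs => D.twist_eq χ hχ hs⟩
    obtain ⟨C, η, hη, hη', hC⟩ := exists_eta hM (show θ < s.re from hs)
    exact (D.QT_diff (by linarith) hC χ hχ hη').differentiableWithinAt
  · intro Y
    obtain ⟨p, q, h1, h2, h3, h4, h5, h6⟩ := D.gap hmono hM1 Y
    refine ⟨p, q, h1, h2, ?_, ?_, ?_, fun r hr => ?_⟩
    · rw [hp p h1]; exact h3
    · rw [hp p h1, hp q h2]; exact h5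
    · rw [hp p h1, hp q h2]; exact h4
    · rw [hp p h1, hp q h2, hp r hr]; exact h6 r hr

end Pool.Agent.BG
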