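import Pool.Agent.Lib_MP_7ba156_hc.Dens

/-!
# The second moment of the number of primes in windows modulo `N`
-/

set_option autoImplicit false

namespace Pool.MP_7ba156_nt.PC

open Finset Pool.MP_7ba156_nt.HC

/-- the number of `j < L` such that the representative of `x + j` in `[0, N)` is prime -/
def cnt (N L : ℕ) (x : ZMod N) : ℕ := ((range L).filter fun j : ℕ => (x + (j : ZMod N)).val.Prime).card

theorem cnt_le (N L : ℕ) (x : ZMod N) : cnt N L x ≤ L :=
  (card_filter_le _ _).trans (card_range L).le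

theorem sum_val (N : ℕ) [NeZero N] (g : ℕ → ℕ) : ∑ x : ZMod N, g x.val = ∑ m ∈ range N, g m := by
  obtain ⟨m, rfl⟩ := Nat.exists_eq_succ_of_ne_zero (NeZero.ne N)
  exact Fin.sum_univ_eq_sum_range g (m + 1)

theorem sum_cnt (N L : ℕ) [NeZero N] : ∑ x : ZMod N, cnt N L x = L * Nat.primeCounting' N := by
  have h1 : ∀ x : ZMod N, cnt N L x = ∑ j ∈ range L, if (x + (j : ZMod N)).val.Prime then 1 else 0 := by
    intro x
    rw [cnt, card_filter]
  rw [sum_congr rfl fun x _ => h1 x, sum_comm]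
  have h2 : ∀ j ∈ range L, (∑ x : ZMod N, if (x + (j : ZMod N)).val.Prime then 1 else 0) = Nat.primeCounting' N := by
    intro j _
    have e := Fintype.sum_equiv (Equiv.addRight (j : ZMod N))
      (fun x : ZMod N => if (x + (j : ZMod N)).val.Prime then (1 : ℕ) else 0)
      (fun x : ZMod N => if x.val.Prime then (1 : ℕ) else 0) fun _ => rfl
    have e2 := sum_val N fun m => if m.Prime then (1 : ℕ) else 0
    rw [e, e2, ← card_filter, Nat.primeCounting', Nat.count_eq_card_filter_range]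
  rw [sum_congr rfl h2, sum_const, card_range, smul_eq_mul]

/-- the wrap-around -/
def wr (N L v : ℕ) : ℕ := if N < v + L then L else 0

theorem cnt_split (N L : ℕ) [NeZero N] (hL : 1 ≤ L) (x : ZMod N) : cnt N L x ≤ X N (L - 1) x.val + wr N L x.val := by
  have hx : x.val < N := ZMod.val_lt x
  set v := x.val with hv
  have hxv : x = (v : ZMod N) := by rw [hv, ZMod.natCast_zmod_val]
  by_cases hw : N < v + L
  · rw [wr, if_pos hw]
    exact (cnt_le N L x).trans (Nat.le_add_left _ _)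
  · rw [wr, if_neg hw, add_zero, cnt, X]
    refine card_le_card_of_injOn (fun j : ℕ => v + j) ?_ ?_
    · intro j hj
      have hj' := mem_filter.1 (mem_coe.1 hj)
      have hjL := mem_range.1 hj'.1
      have hlt : v + j < N := by omega
      have h3 := hj'.2
      rw [hxv, ← Nat.cast_add, ZMod.val_natCast, Nat.mod_eq_of_lt hlt] at h3
      refine mem_coe.2 (mem_filter.2 ⟨mem_filter.2 ⟨mem_range.2 hlt, h3⟩, Nat.le_add_right v j, ?_⟩)
      show v + j ≤ v + (L - 1)
      omega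
    · intro a _ b _ hab
      exact Nat.add_left_cancel hab

theorem sum_wr (N L : ℕ) : ∑ m ∈ range N, wr N L m ^ 2 ≤ L ^ 3 := by
  have h1 : ∀ m ∈ range N, wr N L m ^ 2 = if N < m + L then L ^ 2 else 0 := by
    intro m _
    unfold wr
    split_ifs <;> simp
  rw [sum_congr rfl h1, ← sum_filter, sum_const, smul_eq_mul]
  have h2 : ((range N).filter fun m => N < m + L).card ≤ L := by
    refine (card_le_card (t := Ico (N - L) N) fun m hm => ?_).trans (by rw [Nat.card_Ico]; omega)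
    rw [mem_filter, mem_range] at hm
    rw [mem_Ico]
    omega
  calc _ ≤ L * L ^ 2 := Nat.mul_le_mul_right _ h2
    _ = L ^ 3 := by ring

theorem sum_cnt_sq (N L : ℕ) [NeZero N] (hL : 1 ≤ L) :
    ∑ x : ZMod N, cnt N L x ^ 2 ≤ 2 * (L * ((Pr N).card + 2 * ∑ h ∈ Icc 1 (L - 1), (pairs h N).card)) + 2 * L ^ 3 := by
  have h1 : ∀ x : ZMod N, cnt N L x ^ 2 ≤ 2 * X N (L - 1) x.val ^ 2 + 2 * wr N L x.val ^ 2 := by
    intro x
    have h2 := Nat.pow_le_pow_left (cnt_split N L hL x) 2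
    refine h2.trans ?_
    have : ∀ a b : ℕ, (a + b) ^ 2 ≤ 2 * a ^ 2 + 2 * b ^ 2 := by
      intro a b
      zify
      nlinarith [sq_nonneg ((a : ℤ) - b)]
    exact this _ _
  refine (sum_le_sum fun x _ => h1 x).trans ?_
  rw [sum_add_distrib, sum_val N fun m => 2 * X N (L - 1) m ^ 2, sum_val N fun m => 2 * wr N L m ^ 2, ← mul_sum, ← mul_sum]
  refine Nat.add_le_add (Nat.mul_le_mul_left 2 ?_) (Nat.mul_le_mul_left 2 (sum_wr N L))
  have h2 := sum_X_sq N (L - 1)
  rwa [Nat.sub_add_cancel hL] at h2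

/-- **The second moment.** -/
theorem second_moment : ∃ C : ℝ, 0 < C ∧ ∀ (N : ℕ) [NeZero N], 3 ≤ N → ∀ L : ℕ, 1 ≤ L → L ^ 2 ≤ N →
    ((∑ x : ZMod N, cnt N L x ^ 2 : ℕ) : ℝ) ≤ C * N * (L / Real.log N * (1 + L / Real.log N)) := by
  obtain ⟨C, hC, x₀, hpair⟩ := pair_upper
  refine ⟨10 + 8 * C + 32 + Real.log (x₀ + 3) ^ 2, by positivity, fun N _ hN L hL hLN => ?_⟩
  have hNR : (3 : ℝ) ≤ N := by exact_mod_cast hN
  have hLR : (1 : ℝ) ≤ L := by exact_mod_cast hL
  have hLNR : (L : ℝ) ^ 2 ≤ N := by exact_mod_cast hLN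
  set l : ℝ := Real.log N with hl
  have hl1 : 1 ≤ l := by
    rw [hl, Real.le_log_iff_exp_le (by linarith)]
    have := Real.exp_one_lt_d9
    linarith
  have hl0 : 0 < l := by linarith
  have hq0 : 0 < (L : ℝ) / l := by positivity
  have hgoal0 : 0 ≤ (N : ℝ) * (L / l * (1 + L / l)) := by positivity
  rcases le_or_gt x₀ N with hx | hx
  · have h1 := sum_cnt_sq N L hL
    have h1R : ((∑ x : ZMod N, cnt N L x ^ 2 : ℕ) : ℝ) ≤
        2 * (L * ((Pr N).card + 2 * ∑ h ∈ Icc 1 (L - 1), ((pairs h N).card : ℝ))) + 2 * L ^ 3 := by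
      exact_mod_cast h1
    refine h1R.trans ?_
    have h2 : ((Pr N).card : ℝ) ≤ 5 * N / l := by
      rw [le_div_iff₀ hl0]
      have h3 := pi_up N (by omega)
      have h4 : ((Pr N).card : ℝ) ≤ Nat.primeCounting N := by exact_mod_cast card_Pr N
      exact (mul_le_mul_of_nonneg_right h4 hl0.le).trans h3
    have h3 : (∑ h ∈ Icc 1 (L - 1), ((pairs h N).card : ℝ)) ≤ 2 * C * N * L / l ^ 2 := by
      rw [le_div_iff₀ (by positivity), sum_mul]
      have h4 : ∀ h ∈ Icc 1 (L - 1), ((pairs h N).card : ℝ) * l ^ 2 ≤ C * N * sg h := fun h hh =>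
        hpair N hx h (mem_Icc.1 hh).1
      refine (sum_le_sum h4).trans ?_
      rw [← mul_sum]
      have h7 := sum_sg (L - 1)
      have h8 : 0 ≤ C * (N : ℝ) := by positivity
      have h9 : (((L - 1 : ℕ) : ℕ) : ℝ) ≤ L := by exact_mod_cast Nat.sub_le L 1
      calc C * (N : ℝ) * ∑ h ∈ Icc 1 (L - 1), sg h ≤ C * N * (2 * ((L - 1 : ℕ) : ℝ)) :=
            mul_le_mul_of_nonneg_left h7 h8
        _ ≤ C * N * (2 * L) := mul_le_mul_of_nonneg_left (by linarith) h8
        _ = _ := by ring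
    have h4 : (L : ℝ) ^ 3 ≤ 16 * N * (L / l) ^ 2 := by
      have h5 : l ^ 2 ≤ 16 * √(N : ℝ) := by
        set r : ℝ := (N : ℝ) ^ (1 / 4 : ℝ) with hr
        have hr0 : 0 < r := Real.rpow_pos_of_pos (by linarith) _
        have h6 : l = 4 * Real.log r := by
          rw [hr, Real.log_rpow (by linarith)]
          ring
        have h7 : Real.log r ≤ r := (Real.log_le_sub_one_of_pos hr0).trans (by linarith)
        have h8 : r * r = √(N : ℝ) := by
          rw [hr, ← Real.rpow_add (by linarith), Real.sqrt_eq_rpow]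
          norm_num
        have h9 : 0 ≤ Real.log r := by linarith
        rw [← h8, h6]
        nlinarith
      have h6 : (L : ℝ) ≤ √(N : ℝ) := Real.le_sqrt_of_sq_le hLNR
      have h7 : √(N : ℝ) * √(N : ℝ) = N := Real.mul_self_sqrt (by linarith)
      have h8 : (L : ℝ) * l ^ 2 ≤ 16 * N := by
        calc (L : ℝ) * l ^ 2 ≤ √(N : ℝ) * (16 * √(N : ℝ)) := mul_le_mul h6 h5 (by positivity) (by positivity)
          _ = 16 * (√(N : ℝ) * √(N : ℝ)) := by ring
          _ = 16 * N := by rw [h7]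
      rw [div_pow, ← mul_div_assoc, le_div_iff₀ (by positivity)]
      calc (L : ℝ) ^ 3 * l ^ 2 = (L : ℝ) ^ 2 * (L * l ^ 2) := by ring
        _ ≤ (L : ℝ) ^ 2 * (16 * N) := mul_le_mul_of_nonneg_left h8 (by positivity)
        _ = _ := by ring
    have h5 : (L : ℝ) * ((Pr N).card + 2 * ∑ h ∈ Icc 1 (L - 1), ((pairs h N).card : ℝ)) ≤
        L * (5 * N / l + 2 * (2 * C * N * L / l ^ 2)) :=
      mul_le_mul_of_nonneg_left (by linarith) (by linarith)
    have h6 : (L : ℝ) * (5 * N / l + 2 * (2 * C * N * L / l ^ 2)) = 5 * N * (L / l) + 4 * C * N * (L / l) ^ 2 := by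
      field_simp
      ring
    have h7 : 0 ≤ (N : ℝ) * (L / l) := by positivity
    have h8 : 0 ≤ (N : ℝ) * (L / l) ^ 2 := by positivity
    have h9 : 0 ≤ C * ((N : ℝ) * (L / l)) := by positivity
    have h10 : 0 ≤ Real.log (x₀ + 3) ^ 2 * (N * (L / l * (1 + L / l))) := by positivity
    have h11 : (10 + 8 * C + 32 + Real.log (x₀ + 3) ^ 2) * (N : ℝ) * (L / l * (1 + L / l)) =
        (42 + 8 * C) * (N * (L / l)) + (42 + 8 * C) * (N * (L / l) ^ 2) +
        Real.log (x₀ + 3) ^ 2 * (N * (L / l * (1 + L / l))) := by ring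
    rw [h11]
    nlinarith
  · have h1 : ∑ x : ZMod N, cnt N L x ^ 2 ≤ N * L ^ 2 := by
      refine (sum_le_card_nsmul univ _ (L ^ 2) fun x _ => Nat.pow_le_pow_left (cnt_le N L x) 2).trans ?_
      rw [card_univ, ZMod.card, smul_eq_mul]
    have h1R : ((∑ x : ZMod N, cnt N L x ^ 2 : ℕ) : ℝ) ≤ N * L ^ 2 := by exact_mod_cast h1
    refine h1R.trans ?_
    have h2 : l ≤ Real.log (x₀ + 3) := by
      refine Real.log_le_log (by linarith) ?_
      have : (N : ℝ) ≤ x₀ := by exact_mod_cast hx.le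
      linarith
    have h3 : l ^ 2 ≤ Real.log (x₀ + 3) ^ 2 := pow_le_pow_left₀ hl0.le h2 2
    have h4 : (N : ℝ) * L ^ 2 = l ^ 2 * (N * (L / l) ^ 2) := by field_simp
    have h5 : (N : ℝ) * (L / l) ^ 2 ≤ N * (L / l * (1 + L / l)) := by
      refine mul_le_mul_of_nonneg_left ?_ (by linarith)
      nlinarith
    calc (N : ℝ) * L ^ 2 = l ^ 2 * (N * (L / l) ^ 2) := h4
      _ ≤ Real.log (x₀ + 3) ^ 2 * (N * (L / l * (1 + L / l))) :=
          mul_le_mul h3 h5 (by positivity) (by positivity)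
      _ ≤ (10 + 8 * C + 32 + Real.log (x₀ + 3) ^ 2) * (N * (L / l * (1 + L / l))) := by
          refine mul_le_mul_of_nonneg_right ?_ hgoal0
          linarith
      _ = _ := by ring

end Pool.MP_7ba156_nt.PC
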