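import Pool.Agent.Lib_MP_7ba156_pc.Two
import Pool.Agent.Lib_MP_7ba156_pc.Sq

/-!
# The number of primes in every translate of almost every cube of intervals modulo `N`
-/

set_option autoImplicit false

namespace Pool.MP_7ba156_nt.PC

open Finset Pool.MP_7ba156_nt.HC

/-- The number of pairs `(ε, j)`, `ε ∈ {0, 1} ^ k`, `0 ≤ j < L`, such that the representative in `[0, N)` of the residue
`n + ε₁ d₁ + ... + ε_k d_k + j` modulo `N` is prime. -/
noncomputable def primesIn (N L k : ℕ) (d : Fin k → ZMod N) (n : ZMod N) : ℕ :=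
  Nat.card {u : (Fin k → Fin 2) × Fin L // (n + ∑ i, (u.1 i : ℕ) • d i + ((u.2 : ℕ) : ZMod N)).val.Prime}

theorem primesIn_eq (N L k : ℕ) (d : Fin k → ZMod N) (n : ZMod N) :
    primesIn N L k d n = ∑ ε : Fin k → Fin 2, cnt N L (n + ∑ i, (ε i : ℕ) • d i) := by
  classical
  unfold primesIn
  rw [Nat.card_eq_fintype_card, Fintype.card_subtype, card_filter, Fintype.sum_prod_type]
  refine sum_congr rfl fun ε _ => ?_
  rw [cnt, card_filter]
  exact Fin.sum_univ_eq_sum_range
    (fun j => if (n + ∑ i, (ε i : ℕ) • d i + (j : ZMod N)).val.Prime then 1 else 0) L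

theorem main : ∃ C : ℝ, 0 < C ∧ ∀ N : ℕ, 3 ≤ N → ∀ L : ℕ, 1 ≤ L → L ^ 2 ≤ N → ∀ k : ℕ, ∀ K : ℝ, 0 < K →
    (Nat.card {d : Fin k → ZMod N // ¬ ∀ n : ZMod N,
        2 ^ k * L * Nat.primeCounting' N / N - C * √(K * (2 ^ k * L) * (1 + L / Real.log N)) ≤ primesIn N L k d n ∧
        (primesIn N L k d n : ℝ) ≤ 2 ^ k * L * Nat.primeCounting' N / N +
          C * (√(K * (2 ^ k * L) * (1 + L / Real.log N)) + L * Real.log N)} : ℝ) * K ≤ (N : ℝ) ^ k := by
  obtain ⟨C₁, hC₁, hsq⟩ := second_moment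
  refine ⟨2 * √(2 * C₁) + 2, by positivity, fun N hN L hL hLN k K hK => ?_⟩
  haveI : NeZero N := ⟨by omega⟩
  classical
  have hNR : (3 : ℝ) ≤ N := by exact_mod_cast hN
  have hLR : (1 : ℝ) ≤ L := by exact_mod_cast hL
  set l : ℝ := Real.log N with hl
  have hl0 : 0 < l := Real.log_pos (by linarith)
  have hcard : Fintype.card (ZMod N) = N := ZMod.card N
  set f : ZMod N → ℝ := fun x => (cnt N L x : ℝ) with hf
  have hmean : mean f = L * Nat.primeCounting' N / N := by
    have h0 : ∑ x : ZMod N, f x = L * Nat.primeCounting' N := by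
      simp only [hf]
      exact_mod_cast sum_cnt N L
    unfold mean
    rw [hcard, h0]
  set V : ℝ := C₁ * (L / l * (1 + L / l)) with hV
  have hV0 : 0 < V := by positivity
  have hfV : mean (fun x => f x ^ 2) ≤ V := by
    unfold mean
    rw [hcard, div_le_iff₀ (by linarith), hf]
    have h1 := hsq N hN L hL hLN
    push_cast at h1
    calc _ ≤ _ := h1
      _ = _ := by rw [hV]; ring
  have hfL : ∀ x, 0 ≤ f x ∧ f x ≤ L := fun x => ⟨Nat.cast_nonneg _, by
    simp only [hf]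
    exact_mod_cast cnt_le N L x⟩
  set R : ℝ := √(K * (2 ^ k * L) * (1 + L / l)) with hR
  have hS : √(2 * K * 2 ^ k * V * l) = √(2 * C₁) * R := by
    rw [hR, ← Real.sqrt_mul (by positivity)]
    congr 1
    rw [hV]
    field_simp
  have hlow := low_tail (by rw [hcard]; exact hN) k f V K hV0 hK (fun x => (hfL x).1) hfV
  have hup := up_tail (by rw [hcard]; exact hN) k f L V K (by linarith) hV0 hK hfL hfV
  rw [hcard, ← hl, hS, hmean] at hlow hup
  have hpr : ∀ (d : Fin k → ZMod N) (n : ZMod N), (primesIn N L k d n : ℝ) =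
      ∑ ε : Fin k → Fin 2, f (n + ∑ i, (ε i : ℕ) • d i) := by
    intro d n
    rw [primesIn_eq, Nat.cast_sum]
  rw [Nat.card_eq_fintype_card, Fintype.card_subtype]
  have hR0 : 0 ≤ R := Real.sqrt_nonneg _
  have hLl : 0 < L * l := by positivity
  have hc0 : 0 ≤ √(2 * C₁) := Real.sqrt_nonneg _
  have hsub : (univ.filter fun d : Fin k → ZMod N => ¬ ∀ n : ZMod N,
      2 ^ k * L * Nat.primeCounting' N / N - (2 * √(2 * C₁) + 2) * R ≤ (primesIn N L k d n : ℝ) ∧
        (primesIn N L k d n : ℝ) ≤ 2 ^ k * L * Nat.primeCounting' N / N +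
          (2 * √(2 * C₁) + 2) * (R + L * l)) ⊆
      (univ.filter fun d : Fin k → ZMod N => ∃ n : ZMod N, ∑ ε : Fin k → Fin 2, f (n + ∑ i, (ε i : ℕ) • d i) ≤
        2 ^ k * (L * Nat.primeCounting' N / N) - 2 * (√(2 * C₁) * R)) ∪
      (univ.filter fun d : Fin k → ZMod N => ∃ n : ZMod N,
        2 ^ k * (L * Nat.primeCounting' N / N) + 2 * (√(2 * C₁) * R) + 2 * L * l ≤
          ∑ ε : Fin k → Fin 2, f (n + ∑ i, (ε i : ℕ) • d i)) := by
    intro d hd
    obtain ⟨n, hn⟩ := not_forall.1 (mem_filter.1 hd).2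
    rw [not_and_or, not_le, not_le, hpr] at hn
    have e : 2 ^ k * (L * (Nat.primeCounting' N : ℝ) / N) = 2 ^ k * L * Nat.primeCounting' N / N := by ring
    rcases hn with hn | hn
    · refine mem_union_left _ (mem_filter.2 ⟨mem_univ _, n, ?_⟩)
      rw [e]
      nlinarith
    · refine mem_union_right _ (mem_filter.2 ⟨mem_univ _, n, ?_⟩)
      rw [e]
      nlinarith [mul_nonneg hc0 hLl.le]
  have h1 : ((univ.filter fun d : Fin k → ZMod N => ¬ ∀ n : ZMod N,
      2 ^ k * L * Nat.primeCounting' N / N - (2 * √(2 * C₁) + 2) * R ≤ (primesIn N L k d n : ℝ) ∧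
        (primesIn N L k d n : ℝ) ≤ 2 ^ k * L * Nat.primeCounting' N / N +
          (2 * √(2 * C₁) + 2) * (R + L * l)).card : ℝ) ≤ _ :=
    (Nat.cast_le.2 ((card_le_card hsub).trans (card_union_le _ _)))
  rw [Nat.cast_add] at h1
  have h2 := mul_le_mul_of_nonneg_right h1 hK.le
  refine le_trans (le_of_eq ?_) (h2.trans ?_)
  · congr
  · rw [add_mul]
    have e1 : ∀ a : ℝ, a * (2 * K) = 2 * (a * K) := fun a => by ring
    rw [e1] at hlow hup
    have h3 := add_le_add hlow hup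
    refine le_trans (add_le_add ?_ ?_) (show (N : ℝ) ^ k / 2 + (N : ℝ) ^ k / 2 ≤ (N : ℝ) ^ k by linarith)
    · have := hlow
      rw [le_div_iff₀ (by norm_num)]
      calc _ = _ := mul_comm _ _
        _ ≤ _ := this
    · have := hup
      rw [le_div_iff₀ (by norm_num)]
      calc _ = _ := mul_comm _ _
        _ ≤ _ := this

end Pool.MP_7ba156_nt.PC
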