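import Pool.Agent.Lib_MP_7ba156_hc.Cube

/-!
# Sums of a function over the translates of almost every cube

`A` is a finite abelian group, `g : A → ℝ`. The logarithm of the mean of `exp` of the sum of `g` over the translates of the
cube of a random tuple `d`, divided by `2 ^ k`, is a supermartingale, bounded below by the mean of `g`.
-/

set_option autoImplicit false

namespace Pool.MP_7ba156_nt.PC

open Finset Pool.MP_7ba156_nt.HC

variable {A : Type} [AddCommGroup A] [Fintype A]

/-- the product of `w` over the cube of `d`, translated by `n` -/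
noncomputable def cube (k : ℕ) (w : A → ℝ) (d : Fin k → A) : A → ℝ :=
  fun n => ∏ ε : Fin k → Fin 2, w (n + ∑ i, (ε i : ℕ) • d i)

theorem cube_zero (w : A → ℝ) (d : Fin 0 → A) : cube 0 w d = w := by
  funext n
  unfold cube
  rw [Fintype.prod_unique]
  simp

theorem cube_succ (k : ℕ) (w : A → ℝ) (a : A) (d : Fin k → A) :
    cube (k + 1) w (Fin.cons a d) = cube k (step w a) d := by
  funext n
  unfold cube
  rw [prod_cube]
  simp [Fin.tail]

theorem cube_pos (k : ℕ) (w : A → ℝ) (hw : ∀ x, 0 < w x) (d : Fin k → A) (n : A) : 0 < cube k w d n :=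
  prod_pos fun _ _ => hw _

theorem mean_pos [Nonempty A] (w : A → ℝ) (hw : ∀ x, 0 < w x) : 0 < mean w := by
  unfold mean
  exact div_pos (sum_pos (fun x _ => hw x) univ_nonempty) (by exact_mod_cast Fintype.card_pos)

/-- Jensen's inequality for the logarithm, by the tangent -/
theorem sum_log_le {ι : Type} (s : Finset ι) (v : ι → ℝ) (hv : ∀ i ∈ s, 0 < v i) (c : ℝ) (hc : 0 < c)
    (h : ∑ i ∈ s, v i ≤ s.card * c) : ∑ i ∈ s, Real.log (v i) ≤ s.card * Real.log c := by
  have h1 : ∀ i ∈ s, Real.log (v i) ≤ Real.log c + (v i / c - 1) := by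
    intro i hi
    have h2 := Real.log_le_sub_one_of_pos (div_pos (hv i hi) hc)
    rw [Real.log_div (hv i hi).ne' hc.ne'] at h2
    linarith
  refine (sum_le_sum h1).trans ?_
  rw [sum_add_distrib, sum_sub_distrib, ← sum_div, sum_const, sum_const, nsmul_eq_mul, nsmul_eq_mul, mul_one]
  have h3 : (∑ i ∈ s, v i) / c ≤ s.card := by
    rw [div_le_iff₀ hc]
    exact h
  linarith

/-- **the supermartingale** -/
theorem sum_log_mean [Nonempty A] (k : ℕ) : ∀ w : A → ℝ, (∀ x, 0 < w x) →
    ∑ d : Fin k → A, Real.log (mean (cube k w d)) ≤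
      (Fintype.card A : ℝ) ^ k * (2 ^ k * Real.log (mean w)) := by
  have hN : (0 : ℝ) < Fintype.card A := by exact_mod_cast Fintype.card_pos
  induction k with
  | zero =>
    intro w _
    simp only [cube_zero]
    simp
  | succ k ih =>
    intro w hw
    have hstep : ∀ a : A, ∀ x, 0 < step w a x := fun a x => mul_pos (hw _) (hw _)
    have h1 : ∑ d : Fin (k + 1) → A, Real.log (mean (cube (k + 1) w d)) =
        ∑ a : A, ∑ d : Fin k → A, Real.log (mean (cube k (step w a) d)) := by
      rw [← Fintype.sum_equiv (Fin.consEquiv fun _ => A) (fun p : A × (Fin k → A) =>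
        Real.log (mean (cube k (step w p.1) p.2))) _ (fun p => by
          rw [← cube_succ]
          rfl), Fintype.sum_prod_type]
    rw [h1]
    refine (sum_le_sum fun a _ => ih (step w a) (hstep a)).trans ?_
    rw [← mul_sum, ← mul_sum]
    have hm := mean_pos w hw
    have h2 : ∑ a : A, mean (step w a) = Fintype.card A * mean w ^ 2 := by
      unfold mean
      rw [← sum_div, sum_step]
      field_simp
    have h3 := sum_log_le (univ : Finset A) (fun a => mean (step w a)) (fun a _ => mean_pos _ (hstep a))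
      (mean w ^ 2) (by positivity) (by rw [h2, card_univ])
    rw [card_univ, Real.log_pow] at h3
    calc (Fintype.card A : ℝ) ^ k * (2 ^ k * ∑ a : A, Real.log (mean (step w a)))
        ≤ (Fintype.card A : ℝ) ^ k * (2 ^ k * (Fintype.card A * ((2 : ℕ) * Real.log (mean w)))) := by
          refine mul_le_mul_of_nonneg_left (mul_le_mul_of_nonneg_left h3 (by positivity)) (by positivity)
      _ = _ := by
          push_cast
          ring

/-- **the lower bound** -/
theorem le_log_mean [Nonempty A] (k : ℕ) (w : A → ℝ) (hw : ∀ x, 0 < w x) (d : Fin k → A) :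
    2 ^ k * mean (fun x => Real.log (w x)) ≤ Real.log (mean (cube k w d)) := by
  have hN : (0 : ℝ) < Fintype.card A := by exact_mod_cast Fintype.card_pos
  have h1 := sum_log_le (univ : Finset A) (cube k w d) (fun n _ => cube_pos k w hw d n) (mean (cube k w d))
    (mean_pos _ (cube_pos k w hw d)) (by
      unfold mean
      rw [card_univ]
      apply le_of_eq
      field_simp)
  rw [card_univ] at h1
  have h2 : ∑ n, Real.log (cube k w d n) = 2 ^ k * ∑ x, Real.log (w x) := by
    have h3 : ∀ n, Real.log (cube k w d n) = ∑ ε : Fin k → Fin 2, Real.log (w (n + ∑ i, (ε i : ℕ) • d i)) := by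
      intro n
      unfold cube
      exact Real.log_prod fun ε _ => (hw _).ne'
    rw [sum_congr rfl fun n _ => h3 n, sum_comm]
    have h4 : ∀ ε : Fin k → Fin 2, ∑ n, Real.log (w (n + ∑ i, (ε i : ℕ) • d i)) = ∑ x, Real.log (w x) :=
      fun ε => sum_shift (fun x => Real.log (w x)) _
    rw [sum_congr rfl fun ε _ => h4 ε, sum_const, nsmul_eq_mul]
    simp
  rw [h2] at h1
  unfold mean at h1 ⊢
  rw [← mul_div_assoc, div_le_iff₀ hN]
  linarith

open Classical in
/-- **Tail bound for the sums of `g` over the translates of almost every cube.** -/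
theorem tail [Nonempty A] (k : ℕ) (g : A → ℝ) (v T : ℝ) (hT : 0 < T)
    (hv : Real.log (mean fun x => Real.exp (g x)) ≤ mean g + v) :
    ((univ.filter fun d : Fin k → A => ∃ n : A, Real.log (Fintype.card A) + 2 ^ k * mean g + T ≤
      ∑ ε : Fin k → Fin 2, g (n + ∑ i, (ε i : ℕ) • d i)).card : ℝ) * T ≤
      (Fintype.card A : ℝ) ^ k * (2 ^ k * v) := by
  have hN : (0 : ℝ) < Fintype.card A := by exact_mod_cast Fintype.card_pos
  set w : A → ℝ := fun x => Real.exp (g x) with hwdef
  have hw : ∀ x, 0 < w x := fun x => Real.exp_pos _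
  have hlw : (fun x => Real.log (w x)) = g := by
    funext x
    exact Real.log_exp _
  set B : Finset (Fin k → A) := univ.filter fun d : Fin k → A => ∃ n : A,
    Real.log (Fintype.card A) + 2 ^ k * mean g + T ≤ ∑ ε : Fin k → Fin 2, g (n + ∑ i, (ε i : ℕ) • d i) with hB
  have hlow : ∀ d : Fin k → A, 2 ^ k * mean g ≤ Real.log (mean (cube k w d)) := by
    intro d
    have := le_log_mean k w hw d
    rwa [hlw] at this
  have h1 : ∀ d ∈ B, T ≤ Real.log (mean (cube k w d)) - 2 ^ k * mean g := by
    intro d hd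
    obtain ⟨n, hn⟩ := (mem_filter.1 hd).2
    have h2 : Real.log (cube k w d n) = ∑ ε : Fin k → Fin 2, g (n + ∑ i, (ε i : ℕ) • d i) := by
      unfold cube
      rw [Real.log_prod fun ε _ => (hw _).ne']
      exact sum_congr rfl fun ε _ => Real.log_exp _
    have h3 : cube k w d n ≤ Fintype.card A * mean (cube k w d) := by
      unfold mean
      rw [mul_div_cancel₀ _ hN.ne']
      exact single_le_sum (f := cube k w d) (fun x _ => (cube_pos k w hw d x).le) (mem_univ n)
    have h4 : Real.log (cube k w d n) ≤ Real.log (Fintype.card A) + Real.log (mean (cube k w d)) := by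
      rw [← Real.log_mul hN.ne' (mean_pos _ (cube_pos k w hw d)).ne']
      exact Real.log_le_log (cube_pos k w hw d n) h3
    rw [h2] at h4
    linarith
  have h5 : (B.card : ℝ) * T ≤ ∑ d ∈ B, (Real.log (mean (cube k w d)) - 2 ^ k * mean g) := by
    rw [← nsmul_eq_mul, ← sum_const]
    exact sum_le_sum h1
  refine h5.trans ?_
  refine (sum_le_sum_of_subset_of_nonneg (subset_univ B) fun d _ _ => sub_nonneg.2 (hlow d)).trans ?_
  rw [sum_sub_distrib, sum_const, nsmul_eq_mul, card_univ, Fintype.card_fun, Fintype.card_fin]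
  have h6 := sum_log_mean k w hw
  have h7 : (Fintype.card A : ℝ) ^ k * (2 ^ k * Real.log (mean w)) ≤
      (Fintype.card A : ℝ) ^ k * (2 ^ k * (mean g + v)) :=
    mul_le_mul_of_nonneg_left (mul_le_mul_of_nonneg_left hv (by positivity)) (by positivity)
  push_cast
  calc ∑ d : Fin k → A, Real.log (mean (cube k w d)) - (Fintype.card A : ℝ) ^ k * (2 ^ k * mean g)
      ≤ (Fintype.card A : ℝ) ^ k * (2 ^ k * (mean g + v)) - (Fintype.card A : ℝ) ^ k * (2 ^ k * mean g) := by
        linarith
    _ = _ := by ring

end Pool.MP_7ba156_nt.PC
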