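import Pool.Agent.Lib_MP_7ba156_nt.Main

/-!
# The twists of the zeta function of the generalised integers by bounded completely multiplicative functions
-/

set_option autoImplicit false

namespace Pool.Agent.BG

open Finset

theorem norm_mul_lt {c : ℝ} (hc : 1 < c) {z : ℂ} (hz : ‖z‖ ≤ 1) {s : ℂ} (hs : 0 < s.re) :
    ‖z * (c : ℂ) ^ (-s)‖ < 1 := by
  have h1 := WData.norm_lt_one hc hs
  rw [norm_mul]
  calc ‖z‖ * ‖(c : ℂ) ^ (-s)‖ ≤ 1 * ‖(c : ℂ) ^ (-s)‖ := mul_le_mul_of_nonneg_right hz (norm_nonneg _)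
    _ < 1 := by rwa [one_mul]

theorem diff_log_mul {c : ℝ} (hc : 1 < c) {z : ℂ} (hz : ‖z‖ ≤ 1) {s : ℂ} (hs : 0 < s.re) :
    DifferentiableAt ℂ (fun s : ℂ => Complex.log (1 - z * (c : ℂ) ^ (-s))) s := by
  refine DifferentiableAt.clog ?_ ?_
  · refine (differentiableAt_const _).sub ((differentiableAt_const _).mul ?_)
    refine DifferentiableAt.const_cpow differentiableAt_id.neg (Or.inl ?_)
    exact_mod_cast (by linarith : c ≠ 0)
  · rw [sub_eq_add_neg]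
    refine Complex.mem_slitPlane_of_norm_lt_one ?_
    rw [norm_neg]
    exact norm_mul_lt hc hz hs

/-- the twisted summand -/
noncomputable def ft (v : ℕ → ℝ) (h : Good v) {s : ℂ} (hs : s ≠ 0) (χ : ℕ →*₀ ℂ) : ℕ →*₀ ℂ := χ * fs v h hs

theorem ft_apply (v : ℕ → ℝ) (h : Good v) {s : ℂ} (hs : s ≠ 0) (χ : ℕ →*₀ ℂ) (n : ℕ) :
    ft v h hs χ n = χ n * ((ext v n : ℝ) : ℂ) ^ (-s) := rfl

theorem summable_ft (v : ℕ → ℝ) (h : Good v) (h2 : ∀ p : ℕ, p.Prime → (p : ℝ) / 2 ≤ v p)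
    {s : ℂ} (hs : s ≠ 0) (hs1 : 1 < s.re) (χ : ℕ →*₀ ℂ) (hχ : ∀ n, ‖χ n‖ ≤ 1) :
    Summable fun n => ‖ft v h hs χ n‖ := by
  refine Summable.of_nonneg_of_le (fun _ => norm_nonneg _) (fun n => ?_) (summable_fs v h h2 hs hs1)
  rw [ft_apply, norm_mul, fs_apply]
  exact mul_le_of_le_one_left (norm_nonneg _) (hχ n)

theorem summable_log_mul (v : ℕ → ℝ) (h : Good v) (h2 : ∀ p : ℕ, p.Prime → (p : ℝ) / 2 ≤ v p)
    {s : ℂ} (hs1 : 1 < s.re) (χ : ℕ →*₀ ℂ) (hχ : ∀ n, ‖χ n‖ ≤ 1) :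
    Summable fun p : Nat.Primes => Complex.log (1 - χ p * ((v p : ℝ) : ℂ) ^ (-s)) := by
  have hs : s ≠ 0 := by
    rintro rfl
    norm_num at hs1
  have h3 := (summable_ft v h h2 hs hs1 χ hχ).of_norm
  have h4 : Summable fun p : Nat.Primes => ft v h hs χ p := h3.subtype _
  refine (Summable.clog_one_sub h4).congr fun p => ?_
  rw [ft_apply, ext_prime p.2]

/-- the twisted Euler product -/
theorem euler_mul (v : ℕ → ℝ) (h : Good v) (h2 : ∀ p : ℕ, p.Prime → (p : ℝ) / 2 ≤ v p)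
    {s : ℂ} (hs1 : 1 < s.re) (χ : ℕ →*₀ ℂ) (hχ : ∀ n, ‖χ n‖ ≤ 1) :
    HasSum (fun n : ℕ => χ n * ((ext v n : ℝ) : ℂ) ^ (-s))
      (Complex.exp (∑' p : Nat.Primes, -Complex.log (1 - χ p * ((v p : ℝ) : ℂ) ^ (-s)))) := by
  have hs : s ≠ 0 := by
    rintro rfl
    norm_num at hs1
  have h3 := summable_ft v h h2 hs hs1 χ hχ
  have h4 := EulerProduct.exp_tsum_primes_log_eq_tsum h3
  have h5 : (∑' p : Nat.Primes, -Complex.log (1 - χ p * ((v p : ℝ) : ℂ) ^ (-s))) =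
      ∑' p : Nat.Primes, -Complex.log (1 - ft v h hs χ p) := by
    refine tsum_congr fun p => ?_
    rw [ft_apply, ext_prime p.2]
  rw [h5, h4]
  exact h3.of_norm.hasSum

namespace WData

variable {M : ℝ → ℝ} (D : WData M)

/-- the term of the logarithm of the quotient of the twists -/
noncomputable def gt (χ : ℕ →*₀ ℂ) (p : ℕ) (s : ℂ) : ℂ :=
  Complex.log (1 - χ p * (p : ℂ) ^ (-s)) - Complex.log (1 - χ p * ((D.w p : ℝ) : ℂ) ^ (-s))

theorem gt_diff (χ : ℕ →*₀ ℂ) (hχ : ∀ n, ‖χ n‖ ≤ 1) {p : ℕ} (hp : p.Prime) {s : ℂ} (hs : 0 < s.re) :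
    DifferentiableAt ℂ (D.gt χ p) s := by
  unfold gt
  have h1 : (1 : ℝ) < (p : ℝ) := by exact_mod_cast hp.one_lt
  have h2 := diff_log_mul h1 (hχ p) hs
  have h3 := diff_log_mul (D.good.one_lt hp) (hχ p) hs
  rw [Complex.ofReal_natCast] at h2
  exact h2.sub h3

theorem gt_bound {τ : ℝ} (hτ : 0 < τ) : ∃ K : ℝ, 0 ≤ K ∧ ∀ χ : ℕ →*₀ ℂ, (∀ n, ‖χ n‖ ≤ 1) → ∀ p : ℕ, p.Prime →
    ∀ s : ℂ, τ ≤ s.re → ‖D.gt χ p s‖ ≤ K * D.U τ p := by
  set z0 : ℝ := Real.sqrt 2 ^ (-τ) with hz0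
  have hs2 : 1 < Real.sqrt 2 := by
    rw [Real.lt_sqrt zero_le_one]; norm_num
  have hz1 : z0 < 1 := Real.rpow_lt_one_of_one_lt_of_neg hs2 (by linarith)
  have hd : 0 < 1 - z0 := by linarith
  have hK : 0 ≤ 1 + (1 - z0)⁻¹ := by positivity
  refine ⟨(1 + (1 - z0)⁻¹) * (1 + 2 ^ τ), by positivity, fun χ hχ p hp s hs => ?_⟩
  have hp2 : (2 : ℝ) ≤ p := by exact_mod_cast hp.two_le
  have hn : ∀ c : ℝ, Real.sqrt 2 ≤ c → ‖χ p * (c : ℂ) ^ (-s)‖ ≤ c ^ (-τ) ∧ ‖χ p * (c : ℂ) ^ (-s)‖ ≤ z0 := by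
    intro c hc
    have hc1 : 1 < c := hs2.trans_le hc
    have h1 : ‖χ p * (c : ℂ) ^ (-s)‖ ≤ c ^ (-τ) := by
      rw [norm_mul, Complex.norm_cpow_eq_rpow_re_of_pos (by linarith), Complex.neg_re]
      refine (mul_le_of_le_one_left (Real.rpow_nonneg (by linarith) _) (hχ p)).trans ?_
      exact Real.rpow_le_rpow_of_exponent_le hc1.le (by linarith)
    refine ⟨h1, h1.trans ?_⟩
    exact Real.rpow_le_rpow_of_nonpos (by linarith) hc (by linarith)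
  by_cases h : ∃ k, p ∈ D.S k
  · have hU : D.U τ p = (p : ℝ) ^ (-τ) := by
      unfold U
      rw [if_pos h]
    rw [hU]
    have h1 : Real.sqrt 2 ≤ (p : ℝ) := by
      refine le_trans ?_ hp2
      rw [Real.sqrt_le_left zero_le_two]
      norm_num
    have h2 : Real.sqrt 2 ≤ D.w p := by
      refine le_trans ?_ (D.two_le hp)
      rw [Real.sqrt_le_left zero_le_two]
      norm_num
    obtain ⟨a1, a2⟩ := hn _ h1
    obtain ⟨b1, b2⟩ := hn _ h2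
    have a3 := norm_log_le a2 hz1
    have b3 := norm_log_le b2 hz1
    have b4 : (D.w p) ^ (-τ) ≤ 2 ^ τ * (p : ℝ) ^ (-τ) := by
      calc (D.w p) ^ (-τ) ≤ ((p : ℝ) / 2) ^ (-τ) :=
            Real.rpow_le_rpow_of_nonpos (by positivity) (D.half_le p) (by linarith)
        _ = (p : ℝ) ^ (-τ) / (2 : ℝ) ^ (-τ) := Real.div_rpow (by linarith) zero_le_two _
        _ = 2 ^ τ * (p : ℝ) ^ (-τ) := by
          rw [Real.rpow_neg zero_le_two, div_inv_eq_mul, mul_comm]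
    have e : D.gt χ p s = Complex.log (1 - χ p * ((p : ℝ) : ℂ) ^ (-s)) -
        Complex.log (1 - χ p * ((D.w p : ℝ) : ℂ) ^ (-s)) := by
      unfold gt
      rw [Complex.ofReal_natCast]
    rw [e]
    calc _ ≤ ‖Complex.log (1 - χ p * ((p : ℝ) : ℂ) ^ (-s))‖ +
          ‖Complex.log (1 - χ p * ((D.w p : ℝ) : ℂ) ^ (-s))‖ := norm_sub_le _ _
      _ ≤ (1 + (1 - z0)⁻¹) * (p : ℝ) ^ (-τ) + (1 + (1 - z0)⁻¹) * (2 ^ τ * (p : ℝ) ^ (-τ)) := by
        refine add_le_add (a3.trans ?_) (b3.trans ?_)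
        · exact mul_le_mul_of_nonneg_left a1 hK
        · exact mul_le_mul_of_nonneg_left (b1.trans b4) hK
      _ = _ := by ring
  · have h0 : D.gt χ p s = 0 := by
      unfold gt
      have h1 : D.w p = p := D.w_of_notMem fun k hk => h ⟨k, hk⟩
      rw [h1, Complex.ofReal_natCast, sub_self]
    rw [h0, norm_zero]
    have : 0 ≤ 1 + (1 - z0)⁻¹ := hK
    have h3 := D.U_nonneg τ p
    positivity

/-- the quotient of the twists -/
noncomputable def QT (χ : ℕ →*₀ ℂ) (s : ℂ) : ℂ := Complex.exp (∑' p : Nat.Primes, D.gt χ p s)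

theorem QT_diff {C η : ℝ} (hη0 : 0 ≤ η) (hC : ∀ x, 2 ≤ x → M x ≤ C * x ^ η) (χ : ℕ →*₀ ℂ) (hχ : ∀ n, ‖χ n‖ ≤ 1)
    {s : ℂ} (hs : η < s.re) : DifferentiableAt ℂ (D.QT χ) s := by
  set τ : ℝ := (η + s.re) / 2 with hτ
  obtain ⟨K, hK, hb⟩ := D.gt_bound (τ := τ) (by linarith)
  have hsum : Summable fun p : Nat.Primes => K * D.U τ p :=
    ((D.U_summable hη0 hC (by linarith)).subtype _).mul_left K
  have hopen : IsOpen {z : ℂ | τ < z.re} := isOpen_lt continuous_const Complex.continuous_re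
  have h1 : DifferentiableOn ℂ (fun z : ℂ => ∑' p : Nat.Primes, D.gt χ p z) {z : ℂ | τ < z.re} := by
    refine Complex.differentiableOn_tsum_of_summable_norm hsum (fun p z hz => ?_) hopen
      fun p z hz => ?_
    · have hz' : τ < z.re := hz
      exact (D.gt_diff χ hχ p.2 (by linarith)).differentiableWithinAt
    · have hz' : τ < z.re := hz
      exact hb χ hχ p p.2 z hz'.le
  have h2 : DifferentiableAt ℂ (fun z : ℂ => ∑' p : Nat.Primes, D.gt χ p z) s :=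
    h1.differentiableAt (hopen.mem_nhds (show τ < s.re by linarith))
  exact h2.cexp

theorem QT_bound {C η τ : ℝ} (hη0 : 0 ≤ η) (hC : ∀ x, 2 ≤ x → M x ≤ C * x ^ η) (hτ : η < τ) :
    ∃ B : ℝ, 0 < B ∧ ∀ χ : ℕ →*₀ ℂ, (∀ n, ‖χ n‖ ≤ 1) → ∀ s : ℂ, τ ≤ s.re → 1 / B ≤ ‖D.QT χ s‖ ∧ ‖D.QT χ s‖ ≤ B := by
  obtain ⟨K, hK, hb⟩ := D.gt_bound (τ := τ) (by linarith)
  have hsum : Summable fun p : Nat.Primes => K * D.U τ p :=
    ((D.U_summable hη0 hC hτ).subtype _).mul_left K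
  set L := ∑' p : Nat.Primes, K * D.U τ p with hL
  refine ⟨Real.exp L, Real.exp_pos _, fun χ hχ s hs => ?_⟩
  have h1 : ‖∑' p : Nat.Primes, D.gt χ p s‖ ≤ L :=
    tsum_of_norm_bounded hsum.hasSum fun p => hb χ hχ p p.2 s hs
  have h2 := Complex.abs_re_le_norm (∑' p : Nat.Primes, D.gt χ p s)
  have h3 := abs_le.1 (h2.trans h1)
  unfold QT
  rw [Complex.norm_exp, one_div, ← Real.exp_neg]
  exact ⟨Real.exp_le_exp.2 h3.1, Real.exp_le_exp.2 h3.2⟩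

theorem twist_eq (χ : ℕ →*₀ ℂ) (hχ : ∀ n, ‖χ n‖ ≤ 1) {s : ℂ} (hs : 1 < s.re) :
    HasSum (fun n : ℕ => χ n * ((ext D.w n : ℝ) : ℂ) ^ (-s))
      ((∑' n : ℕ, χ n * (n : ℂ) ^ (-s)) * D.QT χ s) := by
  have hid : ∀ p : ℕ, p.Prime → (p : ℝ) / 2 ≤ (fun p : ℕ => (p : ℝ)) p := fun p _ => by
    have : (0 : ℝ) ≤ p := Nat.cast_nonneg _
    show (p : ℝ) / 2 ≤ p
    linarith
  have h1 := euler_mul D.w D.good (fun p _ => D.half_le p) hs χ hχ
  have h2 := summable_log_mul D.w D.good (fun p _ => D.half_le p) hs χ hχ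
  have h0 := euler_mul (fun p : ℕ => (p : ℝ)) good_id hid hs χ hχ
  have h0' := summable_log_mul (fun p : ℕ => (p : ℝ)) good_id hid hs χ hχ
  have h3 : Summable fun p : Nat.Primes => Complex.log (1 - χ p * (p : ℂ) ^ (-s)) := by
    refine h0'.congr fun p => ?_
    rw [Complex.ofReal_natCast]
  have e0 : ∑' n : ℕ, χ n * (n : ℂ) ^ (-s) =
      Complex.exp (∑' p : Nat.Primes, -Complex.log (1 - χ p * (p : ℂ) ^ (-s))) := by
    have h4 := h0.tsum_eq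
    have h5 : ∀ n : ℕ, χ n * ((ext (fun p : ℕ => (p : ℝ)) n : ℝ) : ℂ) ^ (-s) = χ n * (n : ℂ) ^ (-s) := by
      intro n
      rw [ext_id, Complex.ofReal_natCast]
    rw [tsum_congr h5] at h4
    rw [h4]
    congr 1
  have h4 : (∑' n : ℕ, χ n * (n : ℂ) ^ (-s)) * D.QT χ s =
      Complex.exp (∑' p : Nat.Primes, -Complex.log (1 - χ p * ((D.w p : ℝ) : ℂ) ^ (-s))) := by
    rw [e0]
    unfold QT
    rw [← Complex.exp_add]
    congr 1
    have h5 : Summable fun p : Nat.Primes => D.gt χ p s := h3.sub h2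
    rw [← h3.neg.tsum_add h5]
    refine tsum_congr fun p => ?_
    unfold gt
    ring
  rw [h4]
  exact h1

end WData

end Pool.Agent.BG
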