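import Pool.Agent.Lib_MP_7ba156_pc.Mart

/-!
# Both tails
-/

set_option autoImplicit false

namespace Pool.MP_7ba156_nt.PC

open Finset Pool.MP_7ba156_nt.HC

variable {A : Type} [AddCommGroup A] [Fintype A]

theorem mean_mul (c : ℝ) (f : A → ℝ) : mean (fun x => c * f x) = c * mean f := by
  unfold mean
  rw [← mul_sum, mul_div_assoc]

theorem mean_le [Nonempty A] (f g : A → ℝ) (h : ∀ x, f x ≤ g x) : mean f ≤ mean g := by
  unfold mean
  exact div_le_div_of_nonneg_right (sum_le_sum fun x _ => h x) (by positivity)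

theorem mean_quad [Nonempty A] (a b : ℝ) (f : A → ℝ) :
    mean (fun x => 1 + a * f x + b * f x ^ 2) = 1 + a * mean f + b * mean (fun x => f x ^ 2) := by
  have hN : (0 : ℝ) < Fintype.card A := by exact_mod_cast Fintype.card_pos
  unfold mean
  rw [sum_add_distrib, sum_add_distrib, ← mul_sum, ← mul_sum, sum_const, card_univ, nsmul_eq_mul, mul_one]
  field_simp

theorem log_mean_exp [Nonempty A] (a b V : ℝ) (hb : 0 ≤ b) (f : A → ℝ) (hV : mean (fun x => f x ^ 2) ≤ V)
    (h : ∀ x, Real.exp (a * f x) ≤ 1 + a * f x + b * f x ^ 2) :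
    Real.log (mean fun x => Real.exp (a * f x)) ≤ mean (fun x => a * f x) + b * V := by
  have h1 : 0 < mean fun x : A => Real.exp (a * f x) := mean_pos _ fun x => Real.exp_pos _
  have h2 := Real.log_le_sub_one_of_pos h1
  have h3 := mean_le _ _ h
  rw [mean_quad] at h3
  have h4 : b * mean (fun x => f x ^ 2) ≤ b * V := mul_le_mul_of_nonneg_left hV hb
  rw [mean_mul]
  linarith

theorem exp_neg_le (x : ℝ) (hx : 0 ≤ x) : Real.exp (-x) ≤ 1 - x + x ^ 2 / 2 := by
  -- the derivative argument: `1 - x + x^2/2 - exp (-x)` is nondecreasing on `[0, ∞)`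
  have h1 := Real.quadratic_le_exp_of_nonneg hx
  -- `1 + x + x^2/2 ≤ exp x`
  have h2 : 0 < Real.exp (-x) := Real.exp_pos _
  have h3 : Real.exp (-x) * Real.exp x = 1 := by rw [← Real.exp_add]; simp
  have h4 : Real.exp (-x) * (1 + x + x ^ 2 / 2) ≤ 1 := by
    calc _ ≤ Real.exp (-x) * Real.exp x := mul_le_mul_of_nonneg_left h1 h2.le
      _ = 1 := h3
  have h5 : (1 - x + x ^ 2 / 2) * (1 + x + x ^ 2 / 2) = 1 + x ^ 4 / 4 := by ring
  have h6 : 0 < 1 + x + x ^ 2 / 2 := by positivity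
  have h7 : Real.exp (-x) * (1 + x + x ^ 2 / 2) ≤ (1 - x + x ^ 2 / 2) * (1 + x + x ^ 2 / 2) := by
    rw [h5]
    have : 0 ≤ x ^ 4 / 4 := by positivity
    linarith
  exact le_of_mul_le_mul_right h7 h6

theorem exp_le_quad (x : ℝ) (hx0 : 0 ≤ x) (hx : x ≤ 1) : Real.exp x ≤ 1 + x + x ^ 2 := by
  have h1 := Real.abs_exp_sub_one_sub_id_le (x := x) (by rw [abs_of_nonneg hx0]; exact hx)
  have h2 := (abs_le.1 h1).2
  linarith

open Classical in
/-- **lower tail** -/
theorem low_tail [Nonempty A] (hN3 : 3 ≤ Fintype.card A) (k : ℕ) (f : A → ℝ) (V K : ℝ) (hV : 0 < V) (hK : 0 < K)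
    (hf : ∀ x, 0 ≤ f x) (hfV : mean (fun x => f x ^ 2) ≤ V) :
    ((univ.filter fun d : Fin k → A => ∃ n : A, ∑ ε : Fin k → Fin 2, f (n + ∑ i, (ε i : ℕ) • d i) ≤
      2 ^ k * mean f - 2 * √(2 * K * 2 ^ k * V * Real.log (Fintype.card A))).card : ℝ) * (2 * K) ≤
      (Fintype.card A : ℝ) ^ k := by
  set l : ℝ := Real.log (Fintype.card A) with hl
  have hNR : (3 : ℝ) ≤ Fintype.card A := by exact_mod_cast hN3
  have hl0 : 0 < l := Real.log_pos (by linarith)
  set W : ℝ := 2 * K * 2 ^ k * V with hW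
  have hW0 : 0 < W := by positivity
  set S : ℝ := √(W * l) with hS
  have hS0 : 0 < S := Real.sqrt_pos.2 (by positivity)
  have hS2 : S * S = W * l := Real.mul_self_sqrt (by positivity)
  set μ : ℝ := S / W with hμ
  have hμ0 : 0 < μ := div_pos hS0 hW0
  have hμ2 : μ ^ 2 * W = l := by
    rw [hμ, div_pow, sq, hS2]
    field_simp
  have hμS : μ * S = l := by
    rw [hμ, div_mul_eq_mul_div, hS2]
    field_simp
  have h1 : Real.log (mean fun x => Real.exp (-μ * f x)) ≤ mean (fun x => -μ * f x) + μ ^ 2 / 2 * V := by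
    refine log_mean_exp (-μ) (μ ^ 2 / 2) V (by positivity) f hfV fun x => ?_
    have := exp_neg_le (μ * f x) (mul_nonneg hμ0.le (hf x))
    rw [neg_mul]
    calc _ ≤ _ := this
      _ = _ := by ring
  have h2 := tail k (fun x => -μ * f x) (μ ^ 2 / 2 * V) (l / 2) (by positivity) h1
  rw [← hl, mean_mul] at h2
  have hT : (Fintype.card A : ℝ) ^ k * (2 ^ k * (μ ^ 2 / 2 * V)) = (Fintype.card A : ℝ) ^ k * (l / 2) / (2 * K) := by
    have : 2 ^ k * (μ ^ 2 / 2 * V) = (μ ^ 2 * W) / 2 / (2 * K) := by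
      rw [hW]
      field_simp
    rw [this, hμ2]
    ring
  rw [hT, le_div_iff₀ (by positivity)] at h2
  have hl2 : 0 < l / 2 := by positivity
  have h3 : ((univ.filter fun d : Fin k → A => ∃ n : A, l + 2 ^ k * (-μ * mean f) + l / 2 ≤
      ∑ ε : Fin k → Fin 2, -μ * f (n + ∑ i, (ε i : ℕ) • d i)).card : ℝ) * (2 * K) ≤ (Fintype.card A : ℝ) ^ k := by
    have h4 : ((univ.filter fun d : Fin k → A => ∃ n : A, l + 2 ^ k * (-μ * mean f) + l / 2 ≤
      ∑ ε : Fin k → Fin 2, -μ * f (n + ∑ i, (ε i : ℕ) • d i)).card : ℝ) * (2 * K) * (l / 2) ≤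
      (Fintype.card A : ℝ) ^ k * (l / 2) := by
      calc _ = ((univ.filter fun d : Fin k → A => ∃ n : A, l + 2 ^ k * (-μ * mean f) + l / 2 ≤
        ∑ ε : Fin k → Fin 2, -μ * f (n + ∑ i, (ε i : ℕ) • d i)).card : ℝ) * (l / 2) * (2 * K) := by ring
        _ ≤ _ := h2
    exact le_of_mul_le_mul_right h4 hl2
  refine le_trans (mul_le_mul_of_nonneg_right (Nat.cast_le.2 (card_le_card ?_)) (by positivity)) h3
  intro d hd
  obtain ⟨n, hn⟩ := (mem_filter.1 hd).2
  refine mem_filter.2 ⟨mem_univ _, n, ?_⟩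
  rw [← mul_sum]
  have h5 := mul_le_mul_of_nonneg_left hn hμ0.le
  have h6 : μ * (2 ^ k * mean f - 2 * S) = μ * (2 ^ k * mean f) - 2 * l := by
    rw [mul_sub, ← hμS]
    ring
  rw [h6] at h5
  linarith

open Classical in
/-- **upper tail** -/
theorem up_tail [Nonempty A] (hN3 : 3 ≤ Fintype.card A) (k : ℕ) (f : A → ℝ) (L V K : ℝ) (hL : 0 < L) (hV : 0 < V)
    (hK : 0 < K) (hf : ∀ x, 0 ≤ f x ∧ f x ≤ L) (hfV : mean (fun x => f x ^ 2) ≤ V) :
    ((univ.filter fun d : Fin k → A => ∃ n : A,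
      2 ^ k * mean f + 2 * √(2 * K * 2 ^ k * V * Real.log (Fintype.card A)) + 2 * L * Real.log (Fintype.card A) ≤
      ∑ ε : Fin k → Fin 2, f (n + ∑ i, (ε i : ℕ) • d i)).card : ℝ) * (2 * K) ≤
      (Fintype.card A : ℝ) ^ k := by
  set l : ℝ := Real.log (Fintype.card A) with hl
  have hNR : (3 : ℝ) ≤ Fintype.card A := by exact_mod_cast hN3
  have hl0 : 0 < l := Real.log_pos (by linarith)
  set W : ℝ := 2 * K * 2 ^ k * V with hW
  have hW0 : 0 < W := by positivity
  set S : ℝ := √(W * l) with hS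
  have hS0 : 0 < S := Real.sqrt_pos.2 (by positivity)
  have hS2 : S * S = W * l := Real.mul_self_sqrt (by positivity)
  obtain ⟨μ, hμ0, hμL, hμW, hμS⟩ : ∃ μ : ℝ, 0 < μ ∧ μ * L ≤ 1 ∧ μ ^ 2 * W ≤ l ∧ 2 * l ≤ μ * (2 * S + 2 * L * l) := by
    rcases le_total (S / W * L) 1 with h | h
    · refine ⟨S / W, div_pos hS0 hW0, h, ?_, ?_⟩
      · rw [div_pow, sq, hS2]
        apply le_of_eq
        field_simp
      · have e : S / W * S = l := by
          rw [div_mul_eq_mul_div, hS2]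
          field_simp
        have : 0 ≤ S / W * (2 * L * l) := by positivity
        calc 2 * l = 2 * (S / W * S) := by rw [e]
          _ ≤ 2 * (S / W * S) + S / W * (2 * L * l) := by linarith
          _ = _ := by ring
    · refine ⟨1 / L, by positivity, ?_, ?_, ?_⟩
      · apply le_of_eq
        field_simp
      · have h1 : 1 / L ≤ S / W := by
          rw [div_le_iff₀ hL]
          exact h
        have h2 : (1 / L) ^ 2 ≤ (S / W) ^ 2 := pow_le_pow_left₀ (by positivity) h1 2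
        calc (1 / L) ^ 2 * W ≤ (S / W) ^ 2 * W := mul_le_mul_of_nonneg_right h2 hW0.le
          _ = l := by
            rw [div_pow, sq S, hS2]
            field_simp
      · have : 0 ≤ 1 / L * (2 * S) := by positivity
        calc 2 * l = 1 / L * (2 * L * l) := by field_simp
          _ ≤ 1 / L * (2 * S) + 1 / L * (2 * L * l) := by linarith
          _ = _ := by ring
  have h1 : Real.log (mean fun x => Real.exp (μ * f x)) ≤ mean (fun x => μ * f x) + l / (2 * K * 2 ^ k) := by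
    have h2 : Real.log (mean fun x => Real.exp (μ * f x)) ≤ mean (fun x => μ * f x) + μ ^ 2 * V := by
      refine log_mean_exp μ (μ ^ 2) V (by positivity) f hfV fun x => ?_
      have := exp_le_quad (μ * f x) (mul_nonneg hμ0.le (hf x).1)
        ((mul_le_mul_of_nonneg_left (hf x).2 hμ0.le).trans hμL)
      calc _ ≤ _ := this
        _ = _ := by ring
    refine h2.trans (add_le_add le_rfl ?_)
    rw [le_div_iff₀ (by positivity)]
    calc μ ^ 2 * V * (2 * K * 2 ^ k) = μ ^ 2 * W := by rw [hW]; ring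
      _ ≤ l := hμW
  have h2 := tail k (fun x => μ * f x) (l / (2 * K * 2 ^ k)) l hl0 h1
  rw [← hl, mean_mul] at h2
  have hT : (Fintype.card A : ℝ) ^ k * (2 ^ k * (l / (2 * K * 2 ^ k))) = (Fintype.card A : ℝ) ^ k * l / (2 * K) := by
    field_simp
  rw [hT, le_div_iff₀ (by positivity)] at h2
  have h3 : ((univ.filter fun d : Fin k → A => ∃ n : A, l + 2 ^ k * (μ * mean f) + l ≤
      ∑ ε : Fin k → Fin 2, μ * f (n + ∑ i, (ε i : ℕ) • d i)).card : ℝ) * (2 * K) ≤ (Fintype.card A : ℝ) ^ k := by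
    have h4 : ((univ.filter fun d : Fin k → A => ∃ n : A, l + 2 ^ k * (μ * mean f) + l ≤
      ∑ ε : Fin k → Fin 2, μ * f (n + ∑ i, (ε i : ℕ) • d i)).card : ℝ) * (2 * K) * l ≤
      (Fintype.card A : ℝ) ^ k * l := by
      calc _ = ((univ.filter fun d : Fin k → A => ∃ n : A, l + 2 ^ k * (μ * mean f) + l ≤
        ∑ ε : Fin k → Fin 2, μ * f (n + ∑ i, (ε i : ℕ) • d i)).card : ℝ) * l * (2 * K) := by ring
        _ ≤ _ := h2
    exact le_of_mul_le_mul_right h4 hl0
  refine le_trans (mul_le_mul_of_nonneg_right (Nat.cast_le.2 (card_le_card ?_)) (by positivity)) h3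
  intro d hd
  obtain ⟨n, hn⟩ := (mem_filter.1 hd).2
  refine mem_filter.2 ⟨mem_univ _, n, ?_⟩
  rw [← mul_sum]
  have h5 := mul_le_mul_of_nonneg_left hn hμ0.le
  have h6 : μ * (2 ^ k * mean f + 2 * S + 2 * L * l) = μ * (2 ^ k * mean f) + μ * (2 * S + 2 * L * l) := by
    ring
  rw [h6] at h5
  linarith

end Pool.MP_7ba156_nt.PC
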