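import Pool.Agent.Lib_MP_7ba156_pc.Main

/-!
# The number of windows of almost every cube modulo `N` which contain a prime
-/

set_option autoImplicit false

namespace Pool.MP_7ba156_nt.PC

open Finset Pool.MP_7ba156_nt.HC

/-- The number of the vectors `ε ∈ {0, 1} ^ k` such that one of the `L` residues `n + ε₁ d₁ + ... + ε_k d_k + j`,
`0 ≤ j < L`, has a representative in `[0, N)` which is prime. -/
noncomputable def primeWindows (N L k : ℕ) (d : Fin k → ZMod N) (n : ZMod N) : ℕ :=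
  Nat.card {ε : Fin k → Fin 2 // ∃ j : ℕ, j < L ∧ (n + ∑ i, (ε i : ℕ) • d i + (j : ZMod N)).val.Prime}

theorem am_gm (Y b : ℝ) (hY : 0 ≤ Y) (hb : 0 ≤ b) : 2 * √(2 * b * Y) ≤ Y / 2 + 4 * b := by
  have h1 : √(2 * b * Y) ≤ (Y / 2 + 4 * b) / 2 := by
    rw [← Real.sqrt_sq (show (0 : ℝ) ≤ (Y / 2 + 4 * b) / 2 by positivity)]
    refine Real.sqrt_le_sqrt ?_
    nlinarith [sq_nonneg (Y / 2 - 4 * b)]
  linarith

theorem win : ∃ C : ℝ, 0 < C ∧ ∀ N : ℕ, 3 ≤ N → ∀ L : ℕ, 1 ≤ L → (L : ℝ) ≤ Real.log N → ∀ k : ℕ, ∀ K : ℝ, 0 < K →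
    (Nat.card {d : Fin k → ZMod N // ∃ n : ZMod N,
        (primeWindows N L k d n : ℝ) < 2 ^ k * L / (C * Real.log N) - C * K * Real.log N} : ℝ) * (2 * K) ≤
      (N : ℝ) ^ k := by
  obtain ⟨c, hc, hd⟩ := dens
  refine ⟨2 / c + 4, by positivity, fun N hN L hL hLN k K hK => ?_⟩
  have : NeZero N := ⟨by omega⟩
  classical
  have hNR : (3 : ℝ) ≤ N := by exact_mod_cast hN
  have hLR : (1 : ℝ) ≤ L := by exact_mod_cast hL
  set l : ℝ := Real.log N with hl
  have hl0 : 0 < l := Real.log_pos (by linarith)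
  have hcard : Fintype.card (ZMod N) = N := ZMod.card N
  set G : Finset (ZMod N) := univ.filter fun m => ∃ j : ℕ, j < L ∧ (m + (j : ZMod N)).val.Prime with hG
  set f : ZMod N → ℝ := fun x => if x ∈ G then 1 else 0 with hf
  have hmean : mean f = G.card / N := by
    unfold mean
    rw [hcard, hf, sum_boole]
    congr 2
    rw [filter_mem_eq_inter, univ_inter]
  have hsq : (fun x => f x ^ 2) = f := by
    ext x
    simp only [hf]
    split_ifs <;> norm_num
  have hcomp : (GG N (L - 1)).card ≤ G.card := by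
    refine card_le_card_of_injOn (fun m : ℕ => (m : ZMod N)) ?_ ?_
    · intro m hm
      obtain ⟨hmN, p, hp, hpp, hpN⟩ := mem_filter.1 (mem_coe.1 hm)
      rw [mem_Icc] at hp
      refine mem_coe.2 (mem_filter.2 ⟨mem_univ _, p - m, by omega, ?_⟩)
      rw [← Nat.cast_add, Nat.add_sub_cancel' hp.1, ZMod.val_natCast, Nat.mod_eq_of_lt hpN]
      exact hpp
    · intro a ha b hb hab
      have ha' := mem_range.1 (mem_filter.1 (mem_coe.1 ha)).1
      have hb' := mem_range.1 (mem_filter.1 (mem_coe.1 hb)).1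
      have h3 := congrArg ZMod.val hab
      simp only [ZMod.val_natCast] at h3
      rwa [Nat.mod_eq_of_lt ha', Nat.mod_eq_of_lt hb'] at h3
  have hg : ((GG N (L - 1)).card : ℝ) ≤ G.card := by exact_mod_cast hcomp
  have h1 := hd N hN (L - 1) ((Nat.cast_le.2 (Nat.sub_le L 1)).trans hLN)
  rw [Nat.cast_sub hL, Nat.cast_one, sub_add_cancel] at h1
  have hden : c * L / l ≤ mean f := by
    rw [hmean, div_le_div_iff₀ hl0 (by linarith)]
    exact h1.trans (mul_le_mul_of_nonneg_right hg hl0.le)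
  have hm0 : 0 < mean f := lt_of_lt_of_le (by positivity) hden
  have h2 := low_tail (by rw [hcard]; exact hN) k f (mean f) K hm0 hK (fun x => by
    simp only [hf]
    split_ifs <;> norm_num) (le_of_eq (by rw [hsq]))
  rw [hcard, ← hl] at h2
  refine le_trans (mul_le_mul_of_nonneg_right ?_ (by positivity)) h2
  rw [Nat.card_eq_fintype_card, Fintype.card_subtype]
  refine Nat.cast_le.2 (card_le_card fun d hd => ?_)
  obtain ⟨n, hn⟩ := (mem_filter.1 hd).2
  refine mem_filter.2 ⟨mem_univ _, n, ?_⟩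
  have hwin : (primeWindows N L k d n : ℝ) = ∑ ε : Fin k → Fin 2, f (n + ∑ i, (ε i : ℕ) • d i) := by
    unfold primeWindows
    rw [Nat.card_eq_fintype_card, Fintype.card_subtype, hf, sum_boole]
    congr 2
    ext ε
    simp [hG]
  rw [← hwin]
  have h3 := am_gm (2 ^ k * mean f) (K * l) (by positivity) (by positivity)
  have h4 : 2 * K * 2 ^ k * mean f * l = 2 * (K * l) * (2 ^ k * mean f) := by ring
  rw [h4]
  have h5 : 2 ^ k * L / ((2 / c + 4) * l) ≤ 2 ^ k * mean f / 2 := by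
    have h6 : 2 ^ k * (c * L / l) ≤ 2 ^ k * mean f := mul_le_mul_of_nonneg_left hden (by positivity)
    have h7 : 2 ^ k * L / ((2 / c + 4) * l) ≤ 2 ^ k * (c * L / l) / 2 := by
      have h8 : 2 ^ k * (c * L / l) / 2 = 2 ^ k * L / (2 / c * l) := by field_simp
      rw [h8]
      refine div_le_div_of_nonneg_left (by positivity) (by positivity) (mul_le_mul_of_nonneg_right ?_ hl0.le)
      linarith
    linarith
  have h6 : 4 * (K * l) ≤ (2 / c + 4) * K * l := by
    have : 0 ≤ 2 / c * (K * l) := by positivity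
    linarith
  linarith

theorem main2 : ∃ C : ℝ, 0 < C ∧ ∀ N : ℕ, 3 ≤ N → ∀ L : ℕ, 1 ≤ L → L ^ 2 ≤ N → ∀ k : ℕ, ∀ K : ℝ, 0 < K →
    (Nat.card {d : Fin k → ZMod N // ¬ ∀ n : ZMod N,
        (2 ^ k * L * Nat.primeCounting' N / N - C * √(K * (2 ^ k * L) * (1 + L / Real.log N)) ≤ primesIn N L k d n ∧
        (primesIn N L k d n : ℝ) ≤ 2 ^ k * L * Nat.primeCounting' N / N +
          C * (√(K * (2 ^ k * L) * (1 + L / Real.log N)) + L * Real.log N)) ∧
        ((L : ℝ) ≤ Real.log N →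
          2 ^ k * L / (C * Real.log N) - C * K * Real.log N ≤ primeWindows N L k d n)} : ℝ) * K ≤ (N : ℝ) ^ k := by
  obtain ⟨C₁, hC₁, h₁⟩ := main
  obtain ⟨C₂, hC₂, h₂⟩ := win
  refine ⟨2 * C₁ + C₂, by positivity, fun N hN L hL hLN k K hK => ?_⟩
  have : NeZero N := ⟨by omega⟩
  classical
  have hNR : (3 : ℝ) ≤ N := by exact_mod_cast hN
  have hLR : (1 : ℝ) ≤ L := by exact_mod_cast hL
  have hl0 : 0 < Real.log N := Real.log_pos (by linarith)
  have h3 := h₁ N hN L hL hLN k (2 * K) (by positivity)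
  set R : ℝ := √(K * (2 ^ k * L) * (1 + L / Real.log N)) with hR
  have hR0 : 0 ≤ R := Real.sqrt_nonneg _
  have hR2 : √(2 * K * (2 ^ k * L) * (1 + L / Real.log N)) = √2 * R := by
    rw [hR, ← Real.sqrt_mul (by norm_num)]
    congr 1
    ring
  have hs2 : √2 ≤ 2 := by
    rw [Real.sqrt_le_left (by norm_num)]
    norm_num
  have hCR : C₁ * (√2 * R) ≤ 2 * C₁ * R := by
    have := mul_le_mul_of_nonneg_right hs2 hR0
    nlinarith
  rw [hR2] at h3
  rw [Nat.card_eq_fintype_card, Fintype.card_subtype] at h3 ⊢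
  set B₁ := univ.filter fun d : Fin k → ZMod N => ¬ ∀ n : ZMod N,
    2 ^ k * L * Nat.primeCounting' N / N - C₁ * (√2 * R) ≤ (primesIn N L k d n : ℝ) ∧
      (primesIn N L k d n : ℝ) ≤ 2 ^ k * L * Nat.primeCounting' N / N + C₁ * (√2 * R + L * Real.log N) with hB₁
  have hpoint : ∀ d : Fin k → ZMod N, d ∉ B₁ → ∀ n : ZMod N,
      2 ^ k * L * Nat.primeCounting' N / N - (2 * C₁ + C₂) * R ≤ (primesIn N L k d n : ℝ) ∧
      (primesIn N L k d n : ℝ) ≤ 2 ^ k * L * Nat.primeCounting' N / N + (2 * C₁ + C₂) * (R + L * Real.log N) := by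
    intro d hd n
    have h4 : ∀ n : ZMod N, 2 ^ k * L * Nat.primeCounting' N / N - C₁ * (√2 * R) ≤ (primesIn N L k d n : ℝ) ∧
      (primesIn N L k d n : ℝ) ≤ 2 ^ k * L * Nat.primeCounting' N / N + C₁ * (√2 * R + L * Real.log N) := by
      by_contra h5
      exact hd (mem_filter.2 ⟨mem_univ _, h5⟩)
    have h5 := h4 n
    have h6 : 0 ≤ C₂ * R := by positivity
    have h7 : 0 ≤ (C₁ + C₂) * (L * Real.log N) := by positivity
    constructor
    · linarith [h5.1]
    · linarith [h5.2]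
  by_cases hLl : (L : ℝ) ≤ Real.log N
  · have h4 := h₂ N hN L hL hLl k K hK
    rw [Nat.card_eq_fintype_card, Fintype.card_subtype] at h4
    set B₂ := univ.filter fun d : Fin k → ZMod N => ∃ n : ZMod N,
      (primeWindows N L k d n : ℝ) < 2 ^ k * L / (C₂ * Real.log N) - C₂ * K * Real.log N with hB₂
    have hsub : (univ.filter fun d : Fin k → ZMod N => ¬ ∀ n : ZMod N,
        (2 ^ k * L * Nat.primeCounting' N / N - (2 * C₁ + C₂) * R ≤ primesIn N L k d n ∧
        (primesIn N L k d n : ℝ) ≤ 2 ^ k * L * Nat.primeCounting' N / N + (2 * C₁ + C₂) * (R + L * Real.log N)) ∧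
        ((L : ℝ) ≤ Real.log N →
          2 ^ k * L / ((2 * C₁ + C₂) * Real.log N) - (2 * C₁ + C₂) * K * Real.log N ≤ primeWindows N L k d n)) ⊆
        B₁ ∪ B₂ := by
      intro d hd
      by_cases hd1 : d ∈ B₁
      · exact mem_union_left _ hd1
      refine mem_union_right _ ?_
      by_contra hd2
      refine (mem_filter.1 hd).2 fun n => ⟨hpoint d hd1 n, fun _ => ?_⟩
      have h5 : 2 ^ k * L / (C₂ * Real.log N) - C₂ * K * Real.log N ≤ (primeWindows N L k d n : ℝ) := by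
        by_contra h6
        exact hd2 (mem_filter.2 ⟨mem_univ _, n, not_le.1 h6⟩)
      have h6 : 2 ^ k * (L : ℝ) / ((2 * C₁ + C₂) * Real.log N) ≤ 2 ^ k * L / (C₂ * Real.log N) :=
        div_le_div_of_nonneg_left (by positivity) (by positivity)
          (mul_le_mul_of_nonneg_right (by linarith) hl0.le)
      have h7 : 0 ≤ 2 * C₁ * K * Real.log N := by positivity
      linarith
    have h5 := (Nat.cast_le (α := ℝ)).2 ((card_le_card hsub).trans (card_union_le _ _))
    rw [Nat.cast_add] at h5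
    have h6 := mul_le_mul_of_nonneg_right h5 hK.le
    have h7 : (B₁.card : ℝ) * K ≤ (N : ℝ) ^ k / 2 := by
      have h8 : (B₁.card : ℝ) * (2 * K) ≤ (N : ℝ) ^ k := by
        convert h3
      linarith
    have h8 : (B₂.card : ℝ) * K ≤ (N : ℝ) ^ k / 2 := by
      have h9 : (B₂.card : ℝ) * (2 * K) ≤ (N : ℝ) ^ k := by
        convert h4
      linarith
    refine le_trans (le_of_eq ?_) (h6.trans (by linarith))
    congr
  · have hsub : (univ.filter fun d : Fin k → ZMod N => ¬ ∀ n : ZMod N,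
        (2 ^ k * L * Nat.primeCounting' N / N - (2 * C₁ + C₂) * R ≤ primesIn N L k d n ∧
        (primesIn N L k d n : ℝ) ≤ 2 ^ k * L * Nat.primeCounting' N / N + (2 * C₁ + C₂) * (R + L * Real.log N)) ∧
        ((L : ℝ) ≤ Real.log N →
          2 ^ k * L / ((2 * C₁ + C₂) * Real.log N) - (2 * C₁ + C₂) * K * Real.log N ≤ primeWindows N L k d n)) ⊆
        B₁ := by
      intro d hd
      by_contra hd1
      exact (mem_filter.1 hd).2 fun n => ⟨hpoint d hd1 n, fun h => absurd h hLl⟩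
    have h5 := (Nat.cast_le (α := ℝ)).2 (card_le_card hsub)
    have h6 := mul_le_mul_of_nonneg_right h5 hK.le
    have h7 : (B₁.card : ℝ) * K ≤ (N : ℝ) ^ k := by
      have h8 : (B₁.card : ℝ) * (2 * K) ≤ (N : ℝ) ^ k := by
        convert h3
      have h9 : 0 ≤ (B₁.card : ℝ) * K := by positivity
      linarith
    refine le_trans (le_of_eq ?_) (h6.trans h7)
    congr

end Pool.MP_7ba156_nt.PC
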